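import Pool.Agent.Y706.BI.Stm

/-!
Project BI (helper706), job SLK: the slack at a bad place with a partial colouring.
-/

set_option autoImplicit false

namespace Pool.Agent.Y496.BI

open Pool.Agent.W277.UB Pool.Agent.W277.UG Pool.Agent.W277.UH Finset Polynomial
open Pool.Agent.Y706.BI

universe u v w

theorem t_SLK : S_SLK.{u, v, w} := by
  intro k K _ _ _ _ Q v d P a ρ L hd m hm z hzP hz b hdet c χ Gs lam hlam hχ
  classical
  have hdR : (2 : ℝ) ≤ d := by exact_mod_cast hd
  have hR0 : (0 : ℝ) ≤ L.R := Nat.cast_nonneg _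
  have hpl := place m hm z hz b L.μ L.lam L.ν L.hlam (fun i => L.hP _ (hzP i)) a L.τ ρ hdet 0
  have h2 : (LL (fun i : Fin (2 * m) => i.1) (oo Q v (lc L.μ L.lam L.ν) z) 0 : ℝ) ≤ 2 * m := by
    have : LL (fun i : Fin (2 * m) => i.1) (oo Q v (lc L.μ L.lam L.ν) z) 0 ≤ 2 * m := by
      unfold LL
      rw [Finset.Icc_eq_empty (by norm_num), Finset.sum_empty, zero_add]
      unfold crd
      refine (Finset.card_le_univ _).trans ?_
      rw [Fintype.card_fin]
    exact_mod_cast this
  have hr0 : 0 ≤ (L.R : ℝ) / (d * ((d : ℝ) - 1)) := by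
    apply div_nonneg hR0
    apply mul_nonneg <;> linarith
  have hRd : (L.R : ℝ) / ((d : ℝ) - 1) ≤ L.R := by
    rw [div_le_iff₀ (by linarith)]
    nlinarith
  -- the indices with an earlier index of the same colour
  set Gd : Finset (Fin (2 * m)) := Gs.filter fun i => ∃ j ∈ Gs, j < i ∧ χ j = χ i with hGd
  have hcompl : (Gs \ Gd).card ≤ c := by
    have h1 : (Gs \ Gd).card ≤ (Finset.univ : Finset (Fin c)).card := by
      apply Finset.card_le_card_of_injOn χ
      · intro i _
        exact Finset.mem_univ _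
      · intro i hi j hj hij
        obtain ⟨hi1, hi'⟩ := Finset.mem_sdiff.mp (Finset.mem_coe.mp hi)
        obtain ⟨hj1, hj'⟩ := Finset.mem_sdiff.mp (Finset.mem_coe.mp hj)
        rcases lt_trichotomy i j with h | h | h
        · exfalso
          exact hj' (Finset.mem_filter.mpr ⟨hj1, i, hi1, h, hij⟩)
        · exact h
        · exfalso
          exact hi' (Finset.mem_filter.mpr ⟨hi1, j, hj1, h, hij.symm⟩)
    rwa [Finset.card_univ, Fintype.card_fin] at h1
  have hcards : (Gs \ Gd).card + Gd.card = Gs.card :=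
    Finset.card_sdiff_add_card_eq_card (Finset.filter_subset _ _)
  have hGq : (Gs.card : ℝ) - c ≤ Gd.card := by
    have : Gs.card ≤ c + Gd.card := by omega
    have h' : (Gs.card : ℝ) ≤ c + Gd.card := by exact_mod_cast this
    linarith
  have hterm : ∀ i : Fin (2 * m), (if i ∈ Gd then lam - L.R else 0) - 2 * (L.R : ℝ) ≤
      (((Finset.univ.filter fun j : Fin (2 * m) => j.1 < i.1).sup
        (oo Q v (lc L.μ L.lam L.ν) z i) : ℕ) : ℝ) - 2 * Az Q v a L.μ L.lam L.τ (z i) +
        (ρ + Q.ord v L.lam + 2 * L.τ) := by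
    intro i
    rw [← L.hR]
    obtain ⟨hA0, hA1⟩ := L.hA _ (hzP i)
    split_ifs with hi
    · obtain ⟨hi1, j, hj1, hji, hc⟩ := Finset.mem_filter.mp hi
      have hne : i ≠ j := ne_of_gt hji
      have hzne : z i ≠ z j := fun h => hne (hz h)
      have h3 : oo Q v (lc L.μ L.lam L.ν) z i j ≤
          (Finset.univ.filter fun j : Fin (2 * m) => j.1 < i.1).sup
            (oo Q v (lc L.μ L.lam L.ν) z i) :=
        Finset.le_sup (f := oo Q v (lc L.μ L.lam L.ν) z i)
          (Finset.mem_filter.mpr ⟨Finset.mem_univ _, hji⟩)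
      have h4 : oo Q v (lc L.μ L.lam L.ν) z i j = L.o (z i) (z j) := by
        rw [L.oo_eq]
        simp only [if_neg hne]
      rw [h4] at h3
      have h5 : (L.o (z i) (z j) : ℝ) ≤
          (((Finset.univ.filter fun j : Fin (2 * m) => j.1 < i.1).sup
            (oo Q v (lc L.μ L.lam L.ν) z i) : ℕ) : ℝ) := by exact_mod_cast h3
      have h6 := hχ i hi1 j hj1 hne hc.symm
      rw [L.GG_eq (hzP i) (hzP j) hzne] at h6
      obtain ⟨hB0, hB1⟩ := L.hA _ (hzP j)
      linarith
    · have h5 : (0 : ℝ) ≤ (((Finset.univ.filter fun j : Fin (2 * m) => j.1 < i.1).sup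
        (oo Q v (lc L.μ L.lam L.ν) z i) : ℕ) : ℝ) := Nat.cast_nonneg _
      linarith
  have hsum := Finset.sum_le_sum fun i (_ : i ∈ (Finset.univ : Finset (Fin (2 * m)))) => hterm i
  have hleft : ∑ i : Fin (2 * m), ((if i ∈ Gd then lam - L.R else 0) - 2 * (L.R : ℝ)) =
      Gd.card * (lam - L.R) - 4 * m * L.R := by
    rw [Finset.sum_sub_distrib, Finset.sum_ite_mem, Finset.univ_inter, Finset.sum_const,
      Finset.sum_const, Finset.card_univ, Fintype.card_fin, nsmul_eq_mul, nsmul_eq_mul]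
    push_cast
    ring
  rw [hleft] at hsum
  have h8 : ((Gs.card : ℝ) - c) * (lam - L.R) ≤ Gd.card * (lam - L.R) :=
    mul_le_mul_of_nonneg_right hGq (by linarith)
  unfold Sl
  linarith

end Pool.Agent.Y496.BI
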